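import Pool.Agent.N875.K15.Stm
import Pool.Agent.N875.P17.Cn1
import Pool.Agent.N809.PQ.Def

/-!
# Project K15: for every `k` there are infinitely many `m` of both signs with `Sg15 m` and
# `tt m = dd m + k`
-/

set_option autoImplicit false
set_option linter.unusedVariables false
set_option linter.style.haveILetI false

open Finset

namespace Pool.Agent.N871.K15

open Pool.Agent.N875.X15
open Pool.Agent.N875.P17
open Pool.Agent.N809.PQ
open Pool.Agent.N875.K15 (tt dd)

/-- an odd prime `≡ 1` modulo `4` with prescribed characters -/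
theorem exists_P {P : Finset ℕ} (hP : ∀ p ∈ P, p.Prime ∧ p ≠ 2 ∧ p ≠ 3 ∧ p ≠ 5) {q₀ : ℕ} (hq : q₀ ∈ P)
    (N : ℕ) : ∃ p : ℕ, N < p ∧ p.Prime ∧ p % 60 = 1 ∧ jacobiSym p q₀ = -1 ∧
      ∀ q ∈ P, q ≠ q₀ → jacobiSym p q = 1 := by
  obtain ⟨hq0, hq2, hq3, hq5⟩ := hP q₀ hq
  haveI : Fact q₀.Prime := ⟨hq0⟩
  have hpos := hq0.pos
  -- a nonresidue
  obtain ⟨g, hg0, hg⟩ : ∃ g : ℕ, Nat.Coprime g q₀ ∧ jacobiSym g q₀ = -1 := by
    have hchar : ringChar (ZMod q₀) ≠ 2 := by
      rw [ZMod.ringChar_zmod_n]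
      exact hq2
    obtain ⟨a, ha⟩ := FiniteField.exists_nonsquare hchar
    have ha0 : a ≠ 0 := by
      rintro rfl
      exact ha ⟨0, by simp⟩
    refine ⟨a.val, ?_, ?_⟩
    · refine (ZMod.isUnit_iff_coprime a.val q₀).1 ?_
      rw [ZMod.natCast_zmod_val]
      exact isUnit_iff_ne_zero.2 ha0
    · rw [← jacobiSym.legendreSym.to_jacobiSym, legendreSym.eq_neg_one_iff']
      rw [ZMod.natCast_zmod_val]
      exact ha
  set M : ℕ := 60 * ∏ q ∈ P.erase q₀, q with hM
  have hcop : Nat.Coprime M q₀ := by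
    rw [hM]
    refine Nat.Coprime.mul_left ?_ (Nat.Coprime.prod_left fun q hq' => ?_)
    · have : (60 : ℕ) = 2 ^ 2 * (3 * 5) := by norm_num
      rw [this]
      refine Nat.Coprime.mul_left (Nat.Coprime.pow_left 2 ?_) (Nat.Coprime.mul_left ?_ ?_)
      · exact (Nat.coprime_primes Nat.prime_two hq0).2 (Ne.symm hq2)
      · exact (Nat.coprime_primes (by norm_num) hq0).2 (Ne.symm hq3)
      · exact (Nat.coprime_primes (by norm_num) hq0).2 (Ne.symm hq5)
    · rw [mem_erase] at hq'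
      exact (Nat.coprime_primes (hP q hq'.2).1 hq0).2 hq'.1
  have hM0 : 0 < M := by
    rw [hM]
    refine Nat.mul_pos (by norm_num) (Finset.prod_pos fun q hq' => ?_)
    rw [mem_erase] at hq'
    exact (hP q hq'.2).1.pos
  obtain ⟨u, hu1, hu2⟩ := Nat.chineseRemainder hcop 1 g
  haveI : NeZero (M * q₀) := ⟨(Nat.mul_pos hM0 hpos).ne'⟩
  have hunit : IsUnit ((u : ℕ) : ZMod (M * q₀)) := by
    rw [ZMod.isUnit_iff_coprime]
    refine Nat.Coprime.mul_right ?_ ?_
    · have : u.gcd M = 1 := by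
        rw [hu1.gcd_eq]
        simp
      exact this
    · have : u.gcd q₀ = g.gcd q₀ := hu2.gcd_eq
      rw [Nat.coprime_iff_gcd_eq_one, this]
      exact hg0
  obtain ⟨p, hp1, hp, hpu⟩ := Nat.forall_exists_prime_gt_and_eq_mod hunit N
  rw [ZMod.natCast_eq_natCast_iff] at hpu
  have hpM : p ≡ 1 [MOD M] := (hpu.of_mul_right q₀).trans hu1
  have hpq : p ≡ g [MOD q₀] := (Nat.ModEq.of_mul_left M hpu).trans hu2
  have h60 : p ≡ 1 [MOD 60] := Nat.ModEq.of_mul_right _ (hM ▸ hpM)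
  refine ⟨p, hp1, hp, h60, ?_, ?_⟩
  · rw [← hg, jacobiSym.mod_left (p : ℤ), jacobiSym.mod_left (g : ℤ)]
    have : ((p : ℤ)) % (q₀ : ℤ) = (g : ℤ) % (q₀ : ℤ) := by exact_mod_cast hpq
    rw [this]
  · intro q hq' hne
    have hd : q ∣ M := by
      rw [hM]
      exact (Finset.dvd_prod_of_mem (fun q => q) (mem_erase.2 ⟨hne, hq'⟩)).mul_left 60
    have h1 : p ≡ 1 [MOD q] := hpM.of_dvd hd
    rw [jacobiSym.mod_left (p : ℤ)]
    have : ((p : ℤ)) % (q : ℤ) = (1 : ℤ) % (q : ℤ) := by exact_mod_cast h1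
    rw [this, ← jacobiSym.mod_left]
    exact jacobiSym.one_left q

theorem ra_jac {q : ℕ} (h2 : q ≠ 2) (a : ℤ) : ra q a = if jacobiSym a q = 1 then 0 else 1 := by
  unfold ra
  rw [ch_odd h2]

/-- the symbols of a prime `p = 1 mod 60` -/
theorem ra_three {p : ℕ} (h60 : p % 60 = 1) : ra p (-3) = 0 := by
  rw [ra_jac (by omega), if_pos]
  have e : (-3 : ℤ) = (-1) * ((3 : ℕ) : ℤ) := by norm_num
  rw [e, jacobiSym.mul_left, jacobiSym.at_neg_one (Nat.odd_iff.2 (by omega)),
    ZMod.χ₄_nat_one_mod_four (by omega), one_mul,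
    jacobiSym.quadratic_reciprocity_one_mod_four' (a := 3) (b := p) (by decide) (by omega),
    jacobiSym.mod_left]
  have : (p : ℤ) % ((3 : ℕ) : ℤ) = 1 := by omega
  rw [this]
  exact jacobiSym.one_left 3

theorem ra_five {p : ℕ} (h60 : p % 60 = 1) : ra p 5 = 0 := by
  rw [ra_jac (by omega), if_pos]
  have e : (5 : ℤ) = ((5 : ℕ) : ℤ) := by norm_num
  rw [e, jacobiSym.quadratic_reciprocity_one_mod_four (a := 5) (b := p) (by decide)
    (Nat.odd_iff.2 (by omega)), jacobiSym.mod_left]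
  have : (p : ℤ) % ((5 : ℕ) : ℤ) = 1 := by omega
  rw [this]
  exact jacobiSym.one_left 5

theorem ra_five' {p : ℕ} (h60 : p % 60 = 1) : ra 5 (p : ℤ) = 0 := by
  rw [ra_jac (by omega), if_pos]
  rw [jacobiSym.mod_left]
  have : (p : ℤ) % ((5 : ℕ) : ℤ) = 1 := by omega
  rw [this]
  exact jacobiSym.one_left 5

/-- one prime more -/
theorem sg_step {m : ℤ} (hm : Squarefree m) (h4 : m % 4 = 1) (h3 : ¬ (3 : ℤ) ∣ m)
    (h5 : ¬ (5 : ℤ) ∣ m) (hS : Sg15 m)
    {q₀ : ℕ} (hq : q₀ ∈ PR m) {p : ℕ} (hp : p.Prime) (hpm : ¬ (p : ℤ) ∣ m) (h60 : p % 60 = 1)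
    (hp0 : jacobiSym p q₀ = -1) (hpq : ∀ q ∈ PR m, q ≠ q₀ → jacobiSym p q = 1) :
    PR (m * p) = insert p (PR m) ∧ p ∉ PR m ∧ Sg15 (m * p) := by
  have hm0 := hm.ne_zero
  have hp4 : p % 4 = 1 := by omega
  have hp2 : p ≠ 2 := by omega
  have hp0' : (p : ℤ) ≠ 0 := by exact_mod_cast hp.ne_zero
  have hpp : (0 : ℤ) < p := by exact_mod_cast hp.pos
  have h4' : (m * p) % 4 = 1 := by
    rw [Int.mul_emod, h4]
    have : (p : ℤ) % 4 = 1 := by omega
    rw [this]
    norm_num
  have hm3 : (m * p) % 3 = m % 3 := by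
    rw [Int.mul_emod]
    have : (p : ℤ) % 3 = 1 := by omega
    rw [this, mul_one, Int.emod_emod_of_dvd _ (dvd_refl _)]
  have hm5 : (m * p) % 5 = m % 5 := by
    rw [Int.mul_emod]
    have : (p : ℤ) % 5 = 1 := by omega
    rw [this, mul_one, Int.emod_emod_of_dvd _ (dvd_refl _)]
  have hB3 : B3 (m * p) ↔ B3 m := by
    unfold B3
    rw [hm3]
  have hB5 : B5 (m * p) ↔ B5 m := by
    unfold B5
    rw [hm5]
  have hpos : 0 < m * p ↔ 0 < m := mul_pos_iff_of_pos_right hpp
  have hneg : m * p < 0 ↔ m < 0 := by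
    constructor
    · intro h
      by_contra h'
      have := mul_nonneg (not_lt.1 h') hpp.le
      omega
    · intro h
      exact mul_neg_of_neg_of_pos h hpp
  have hPR : PR (m * p) = insert p (PR m) := by
    unfold PR
    rw [if_pos h4', if_pos h4, Int.natAbs_mul, Int.natAbs_natCast,
      Nat.primeFactors_mul (Int.natAbs_ne_zero.2 hm0) hp.ne_zero, hp.primeFactors]
    ext x
    simp only [mem_union, mem_insert, mem_singleton]
    tauto
  have hnot : p ∉ PR m := by
    rw [mem_PR hm0]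
    rintro ⟨-, h | h⟩
    · exact hpm h
    · exact h.2 h4
  have hodd : ∀ q ∈ PR m, q.Prime ∧ q ≠ 2 := by
    intro q hq
    rw [mem_PR hm0] at hq
    refine ⟨hq.1, ?_⟩
    rintro rfl
    rcases hq.2 with h | h
    · have : (2 : ℤ) ∣ m := by exact_mod_cast h
      omega
    · exact h.2 h4
  have hdvd : ∀ q ∈ PR m, (q : ℤ) ∣ m := by
    intro q hq
    rw [mem_PR hm0] at hq
    rcases hq.2 with h | h
    · exact h
    · exact absurd h4 h.2
  -- the symbols
  have ha : ∀ q ∈ PR m, ra q (p : ℤ) = if q = q₀ then 1 else 0 := by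
    intro q hq'
    rw [ra_jac (hodd q hq').2]
    by_cases h : q = q₀
    · rw [h, hp0, if_neg (by norm_num), if_pos rfl]
    · rw [hpq q hq' h, if_pos rfl, if_neg h]
  have hsp : sgp p = (p : ℤ) := if_pos hp4
  have hra1 : ∀ q ∈ PR m, ra q (ps (m * p) p) = if q = q₀ then 1 else 0 := by
    intro q hq'
    rw [ps_odd hp2, hsp, ha q hq']
  have hra2 : ∀ q ∈ PR m, ra p (ps (m * p) q) = if q = q₀ then 1 else 0 := by
    intro q hq'
    rw [ra_rec hp (hodd q hq').1 (hodd q hq').2, ha q hq']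
  have hps : ∀ q ∈ PR m, ps (m * p) q = ps m q := by
    intro q hq'
    rw [ps_odd (hodd q hq').2, ps_odd (hodd q hq').2]
  have hq0 : q₀ ∈ PR m := hq
  -- the matrix
  have L1 : ∀ q ∈ PR m, ∀ q' ∈ PR m, Lm (m * p) q q' = Lm m q q' +
      if q = q' then (if q = q₀ then 1 else 0) else 0 := by
    intro q hqq q' hqq'
    unfold Lm
    by_cases h : q = q'
    · rw [if_pos h, if_pos h, if_pos h, hPR]
      have e : (insert p (PR m)).erase q = insert p ((PR m).erase q) := by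
        rw [erase_insert_of_ne]
        rintro rfl
        exact hnot hqq
      rw [e, sum_insert (fun h1 => hnot (mem_erase.1 h1).2), hra1 q hqq, add_comm]
      congr 1
      refine sum_congr rfl fun r hr => ?_
      rw [hps r (mem_erase.1 hr).2]
    · rw [if_neg h, if_neg h, if_neg h, add_zero, hps q' hqq']
  have L2 : ∀ q ∈ PR m, Lm (m * p) q p = if q = q₀ then 1 else 0 := by
    intro q hqq
    unfold Lm
    rw [if_neg (by rintro rfl; exact hnot hqq), hra1 q hqq]
  have L3 : ∀ q ∈ PR m, Lm (m * p) p q = if q = q₀ then 1 else 0 := by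
    intro q hqq
    unfold Lm
    rw [if_neg (by rintro rfl; exact hnot hqq), hra2 q hqq]
  have L4 : Lm (m * p) p p = 1 := by
    unfold Lm
    rw [if_pos rfl, hPR, erase_insert hnot]
    rw [sum_congr rfl hra2, sum_ite_eq' (PR m) q₀ (fun _ => (1 : ZMod 2)), if_pos hq0]
  have A1 : ∀ q ∈ PR m, al (m * p) q = al m q := by
    intro q hqq
    unfold al
    rw [hps q hqq]
  have A2 : al (m * p) p = 0 := by
    unfold al
    rw [ps_odd hp2, hsp, if_neg]
    omega
  have N3 := ra_three h60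
  have N5 := ra_five h60
  have N5' : ra 5 (ps (m * p) p) = 0 := by
    rw [ps_odd hp2, hsp]
    exact ra_five' h60
  refine ⟨hPR, hnot, fun x y s a c H => ?_⟩
  have ez : ∀ z : ℕ → ZMod 2, ∑ q ∈ PR m, (if q = q₀ then (1 : ZMod 2) else 0) * z q = z q₀ := by
    intro z
    simp only [ite_mul, one_mul, zero_mul]
    rw [sum_ite_eq' (PR m) q₀ z, if_pos hq0]
  have hzz : ∀ a b : ZMod 2, a + b = 0 → a = b := by decide
  -- row `p`
  have r1 := H.row p (by rw [hPR]; exact mem_insert_self _ _)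
  rw [N3, N5, mul_zero, mul_zero, add_zero, add_zero, hPR, sum_insert hnot, L4, one_mul,
    sum_congr rfl (fun q hqq => by rw [L3 q hqq]), ez y] at r1
  -- column `p`
  have r2 := H.col p (by rw [hPR]; exact mem_insert_self _ _)
  rw [A2, N5', mul_zero, mul_zero, add_zero, add_zero, hPR, sum_insert hnot, L4, one_mul,
    sum_congr rfl (fun q hqq => by rw [L2 q hqq]), ez x] at r2
  have ry := hzz _ _ r1
  have rx := hzz _ _ r2
  have key : Sol15 m x y s a c := by
    refine ⟨fun h => H.s0 (hneg.2 h), fun h => H.a0 (fun h' => h (hB3.1 h')),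
      fun h => H.c0 (fun h' => h (hB5.1 h')), fun q hqq => ?_, fun q hqq => ?_, fun h => ?_,
      fun h => ?_, fun h => ?_⟩
    · have h3 := H.row q (by rw [hPR]; exact mem_insert_of_mem hqq)
      rw [hPR, sum_insert hnot, L2 q hqq, sum_congr rfl (fun q' hqq' => by rw [L1 q hqq q' hqq'])]
        at h3
      simp only [add_mul, sum_add_distrib] at h3
      have e : ∑ q' ∈ PR m, (if q = q' then (if q = q₀ then (1 : ZMod 2) else 0) else 0) * y q' =
          (if q = q₀ then 1 else 0) * y q := by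
        simp only [ite_mul, zero_mul]
        rw [sum_ite_eq (PR m) q (fun q' => if q = q₀ then (1 : ZMod 2) * y q' else 0), if_pos hqq]
      rw [e] at h3
      have h5 : ∀ a b c d : ZMod 2, a + (b + a) + c + d = b + c + d := by decide
      by_cases h : q = q₀
      · rw [if_pos h, one_mul, one_mul, ry, ← h, h5] at h3
        exact h3
      · rw [if_neg h, zero_mul, zero_mul, zero_add, add_zero] at h3
        exact h3
    · have h3 := H.col q (by rw [hPR]; exact mem_insert_of_mem hqq)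
      rw [hPR, sum_insert hnot, L3 q hqq, A1 q hqq, hps q hqq,
        sum_congr rfl (fun q' hqq' => by rw [L1 q' hqq' q hqq])] at h3
      simp only [add_mul, sum_add_distrib] at h3
      have e : ∑ q' ∈ PR m, (if q' = q then (if q' = q₀ then (1 : ZMod 2) else 0) else 0) * x q' =
          (if q = q₀ then 1 else 0) * x q := by
        simp only [ite_mul, zero_mul]
        rw [sum_ite_eq' (PR m) q (fun q' => if q' = q₀ then (1 : ZMod 2) * x q' else 0), if_pos hqq]
      rw [e] at h3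
      have h5 : ∀ a b c d : ZMod 2, a + (b + a) + c + d = b + c + d := by decide
      by_cases h : q = q₀
      · rw [if_pos h, one_mul, one_mul, rx, ← h, h5] at h3
        exact h3
      · rw [if_neg h, zero_mul, zero_mul, zero_add, add_zero] at h3
        exact h3
    · have h3 := H.sgn (hpos.2 h)
      rw [hPR, sum_insert hnot, A2, zero_mul, zero_add,
        sum_congr rfl (fun q hqq => by rw [A1 q hqq])] at h3
      exact h3
    · have h3 := H.at3 (hB3.2 h)
      rw [hPR, sum_insert hnot, N3, zero_mul, zero_add] at h3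
      exact h3
    · have h3 := H.at5 (hB5.2 h)
      have e : ∑ q ∈ PR m, ra 5 (ps (m * p) q) * y q = ∑ q ∈ PR m, ra 5 (ps m q) * y q :=
        sum_congr rfl fun q hqq => by rw [hps q hqq]
      rw [hPR, sum_insert hnot, sum_insert hnot, N5, N5', zero_mul, zero_mul, zero_add, zero_add,
        e] at h3
      exact h3
  obtain ⟨k1, k2, α, β, k3, k4, k5⟩ := hS x y s a c key
  refine ⟨k1, k2, α, β, ?_, fun q hqq => ?_, fun q hqq => ?_⟩
  · rw [k3]
    exact if_congr hpos.symm rfl rfl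
  · rw [hPR, mem_insert] at hqq
    rcases hqq with rfl | hqq
    · rw [rx, k4 q₀ hq0, if_pos (hdvd q₀ hq0), if_pos (Dvd.intro_left m rfl)]
    · rw [k4 q hqq, if_pos (hdvd q hqq), if_pos ((hdvd q hqq).mul_right _)]
  · rw [hPR, mem_insert] at hqq
    rcases hqq with rfl | hqq
    · rw [ry, k5 q₀ hq0]
    · exact k5 q hqq

/-- the negative `m` of the family: one prime -/
theorem neg_base (N : ℕ) : ∃ m : ℤ, m < 0 ∧ N < m.natAbs ∧ Squarefree m ∧ m % 4 = 1 ∧
    m % 3 = 1 ∧ (m % 5 = 2 ∨ m % 5 = 3) ∧ Sg15 m ∧ (PR m).card = 1 := by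
  haveI : NeZero 60 := ⟨by norm_num⟩
  obtain ⟨q, hqN, hq, hqu⟩ := Nat.forall_exists_prime_gt_and_eq_mod
    (q := 60) (a := ((23 : ℕ) : ZMod 60)) ((ZMod.isUnit_iff_coprime 23 60).2 (by decide)) N
  rw [ZMod.natCast_eq_natCast_iff] at hqu
  have h60 : q % 60 = 23 := hqu
  have hPR : PR (-(q : ℤ)) = {q} := by
    unfold PR
    rw [if_pos (by omega), Int.natAbs_neg, Int.natAbs_natCast, hq.primeFactors]
  have hq0 := hq.pos
  refine ⟨-(q : ℤ), by omega, by omega, ?_, by omega, by omega, by omega, ?_, ?_⟩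
  · intro x hx
    rw [dvd_neg] at hx
    exact Int.squarefree_natCast.2 hq.squarefree x hx
  · intro x y s a c H
    have ha := H.a0 (by unfold B3; omega)
    have hc := H.c0 (by unfold B5; omega)
    have hs := H.s0 (by omega)
    refine ⟨ha, hc, x q, y q, ?_, fun p hp => ?_, fun p hp => ?_⟩
    · rw [if_neg (by omega)]
      exact hs
    · rw [hPR, mem_singleton] at hp
      subst hp
      rw [if_pos (by rw [dvd_neg])]
    · rw [hPR, mem_singleton] at hp
      rw [hp]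
  · rw [hPR, card_singleton]

/-- the positive `m` of the family: one prime -/
theorem pos_base (N : ℕ) : ∃ m : ℤ, 0 < m ∧ N < m.natAbs ∧ Squarefree m ∧ m % 4 = 1 ∧
    m % 3 = 2 ∧ (m % 5 = 2 ∨ m % 5 = 3) ∧ Sg15 m ∧ (PR m).card = 1 := by
  haveI : NeZero 60 := ⟨by norm_num⟩
  obtain ⟨q, hqN, hq, hqu⟩ := Nat.forall_exists_prime_gt_and_eq_mod
    (q := 60) (a := ((17 : ℕ) : ZMod 60)) ((ZMod.isUnit_iff_coprime 17 60).2 (by decide)) N
  rw [ZMod.natCast_eq_natCast_iff] at hqu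
  have h60 : q % 60 = 17 := hqu
  have hq2 : q ≠ 2 := by omega
  have hPR : PR (q : ℤ) = {q} := by
    unfold PR
    rw [if_pos (by omega), Int.natAbs_natCast, hq.primeFactors]
  have hq0 := hq.pos
  have hr : ra q (-3) = 1 := by
    rw [ra_jac hq2, if_neg]
    have e : (-3 : ℤ) = (-1) * ((3 : ℕ) : ℤ) := by norm_num
    rw [e, jacobiSym.mul_left, jacobiSym.at_neg_one (Nat.odd_iff.2 (by omega)),
      ZMod.χ₄_nat_one_mod_four (by omega), one_mul,
      jacobiSym.quadratic_reciprocity_one_mod_four' (a := 3) (b := q) (by decide) (by omega),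
      jacobiSym.mod_left]
    have : (q : ℤ) % ((3 : ℕ) : ℤ) = 2 := by omega
    rw [this]
    decide +kernel
  refine ⟨(q : ℤ), by omega, by omega, Int.squarefree_natCast.2 hq.squarefree, by omega, by omega,
    by omega, ?_, ?_⟩
  · intro x y s a c H
    have hc := H.c0 (by unfold B5; omega)
    have hL : Lm (q : ℤ) q q = 0 := by
      unfold Lm
      rw [if_pos rfl, hPR, erase_singleton, sum_empty]
    have h1 := H.row q (by rw [hPR]; exact mem_singleton_self _)
    rw [hPR, sum_singleton, hL, zero_mul, zero_add, hr, mul_one, hc, zero_mul, add_zero] at h1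
    have h2 := H.at3 (by unfold B3; omega)
    rw [hPR, sum_singleton, hr, one_mul, hc, add_zero] at h2
    have hzz : ∀ a b : ZMod 2, a + b = 0 → b = a := by decide
    refine ⟨h1, hc, x q, y q, ?_, fun p hp => ?_, fun p hp => ?_⟩
    · rw [if_pos (by omega)]
      exact hzz _ _ h2
    · rw [hPR, mem_singleton] at hp
      subst hp
      rw [if_pos (dvd_refl _)]
    · rw [hPR, mem_singleton] at hp
      rw [hp]
  · rw [hPR, card_singleton]

/-- more primes -/
theorem more {m : ℤ} (hm : Squarefree m) (h4 : m % 4 = 1) (h3 : ¬ (3 : ℤ) ∣ m)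
    (h5 : ¬ (5 : ℤ) ∣ m) (hS : Sg15 m)
    (hne : (PR m).Nonempty) (N : ℕ) : ∃ p : ℕ, N < p ∧ p.Prime ∧ p % 60 = 1 ∧ Squarefree (m * p) ∧
      Sg15 (m * p) ∧ (PR (m * p)).card = (PR m).card + 1 := by
  have hm0 := hm.ne_zero
  obtain ⟨q₀, hq⟩ := hne
  obtain ⟨p, hpN, hp, hp60, hp0, hpq⟩ := exists_P (P := PR m) (fun q hq => by
    have hq' := hq
    rw [mem_PR hm0] at hq'
    have h2 : ¬ (2 : ℤ) ∣ m := by omega
    refine ⟨hq'.1, ?_, ?_, ?_⟩
    · rintro rfl
      rcases hq'.2 with h | h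
      · exact h2 (by exact_mod_cast h)
      · exact h.2 h4
    · rintro rfl
      rcases hq'.2 with h | h
      · exact h3 (by exact_mod_cast h)
      · exact h.2 h4
    · rintro rfl
      rcases hq'.2 with h | h
      · exact h5 (by exact_mod_cast h)
      · exact h.2 h4) hq (N + m.natAbs)
  have hpm : ¬ (p : ℤ) ∣ m := by
    intro h
    rw [Int.natCast_dvd] at h
    have := Nat.le_of_dvd (Int.natAbs_pos.2 hm0) h
    omega
  obtain ⟨e1, e2, e3⟩ := sg_step hm h4 h3 h5 hS hq hp hpm hp60 hp0 hpq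
  refine ⟨p, by omega, hp, hp60, ?_, e3, ?_⟩
  · rw [squarefree_mul_iff]
    refine ⟨?_, hm, Int.squarefree_natCast.2 hp.squarefree⟩
    exact ((Nat.prime_iff_prime_int.1 hp).coprime_iff_not_dvd.2 hpm).symm.isRelPrime
  · rw [e1, card_insert_of_notMem e2]

theorem mod_step {m : ℤ} {p : ℕ} (hp : p % 60 = 1) : (m * p) % 60 = m % 60 := by
  rw [Int.mul_emod]
  have : (p : ℤ) % 60 = 1 := by omega
  rw [this, mul_one, Int.emod_emod_of_dvd _ (dvd_refl _)]

/-- all the numbers of primes, negative `m` -/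
theorem neg_all (k : ℕ) : ∀ N : ℕ, ∃ m : ℤ, m < 0 ∧ N < m.natAbs ∧ Squarefree m ∧ m % 4 = 1 ∧
    m % 3 = 1 ∧ (m % 5 = 2 ∨ m % 5 = 3) ∧ Sg15 m ∧ (PR m).card = k + 1 := by
  induction k with
  | zero => exact neg_base
  | succ k ih =>
    intro N
    obtain ⟨m, h0, -, hm, h4, h3, h5, hS, hc⟩ := ih 0
    obtain ⟨p, hpN, hp, h60, h1, h2, h6⟩ := more hm h4 (by omega) (by omega) hS
      (card_pos.1 (by omega)) N
    have hpp : (0 : ℤ) < p := by exact_mod_cast hp.pos
    have hm60 := mod_step (m := m) h60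
    refine ⟨m * p, mul_neg_of_neg_of_pos h0 hpp, ?_, h1, by omega, by omega, by omega, h2,
      by omega⟩
    rw [Int.natAbs_mul, Int.natAbs_natCast]
    have : 1 ≤ m.natAbs := by omega
    calc N < p := hpN
      _ = 1 * p := (one_mul p).symm
      _ ≤ m.natAbs * p := Nat.mul_le_mul_right p this

/-- all the numbers of primes, positive `m` -/
theorem pos_all (k : ℕ) : ∀ N : ℕ, ∃ m : ℤ, 0 < m ∧ N < m.natAbs ∧ Squarefree m ∧ m % 4 = 1 ∧
    m % 3 = 2 ∧ (m % 5 = 2 ∨ m % 5 = 3) ∧ Sg15 m ∧ (PR m).card = k + 1 := by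
  induction k with
  | zero => exact pos_base
  | succ k ih =>
    intro N
    obtain ⟨m, h0, -, hm, h4, h3, h5, hS, hc⟩ := ih 0
    obtain ⟨p, hpN, hp, h60, h1, h2, h6⟩ := more hm h4 (by omega) (by omega) hS
      (card_pos.1 (by omega)) N
    have hpp : (0 : ℤ) < p := by exact_mod_cast hp.pos
    have hm60 := mod_step (m := m) h60
    refine ⟨m * p, mul_pos h0 hpp, ?_, h1, by omega, by omega, by omega, h2, by omega⟩
    rw [Int.natAbs_mul, Int.natAbs_natCast]
    have : 1 ≤ m.natAbs := by omega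
    calc N < p := hpN
      _ = 1 * p := (one_mul p).symm
      _ ≤ m.natAbs * p := Nat.mul_le_mul_right p this

lemma inf_of {Q : ℤ → Prop} (h : ∀ N : ℕ, ∃ m, N < m.natAbs ∧ Q m) : {m | Q m}.Infinite := by
  intro hf
  obtain ⟨B, hB⟩ := (hf.image Int.natAbs).bddAbove
  obtain ⟨m, h1, h2⟩ := h B
  have h3 : m.natAbs ≤ B := hB ⟨m, h2, rfl⟩
  omega

theorem tt_ndvd {m : ℤ} (hm : m ≠ 0) (h5 : ¬ (5 : ℤ) ∣ m) : tt m = (PR m).card := by
  unfold Pool.Agent.N875.K15.tt
  rw [erase_eq_of_notMem]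
  intro h
  rw [mem_PR hm] at h
  rcases h.2 with h | h
  · exact h5 (by exact_mod_cast h)
  · exact absurd h.1 (by norm_num)

theorem jac_five {m : ℤ} (h5 : m % 5 = 2 ∨ m % 5 = 3) : jacobiSym m 5 = -1 := by
  rw [jacobiSym.mod_left]
  have e : m % ((5 : ℕ) : ℤ) = m % 5 := rfl
  rw [e]
  rcases h5 with h | h <;> rw [h] <;> decide +kernel

/-- **infinitely many imaginary fields** -/
theorem inf_neg (k : ℕ) : {m : ℤ | m < 0 ∧ Squarefree m ∧ m % 4 = 1 ∧ Sg15 m ∧ m ≠ -1 ∧
    tt m = dd m + k}.Infinite := by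
  refine inf_of fun N => ?_
  obtain ⟨m, h0, hN, hm, h4, h3, h5, hS, hc⟩ := neg_all k (N + 1)
  refine ⟨m, by omega, h0, hm, h4, hS, by omega, ?_⟩
  rw [tt_ndvd hm.ne_zero (by omega), hc]
  unfold Pool.Agent.N875.K15.dd
  rw [if_neg (by omega), add_comm]

/-- **infinitely many real fields** -/
theorem inf_pos (k : ℕ) : {m : ℤ | 0 < m ∧ Squarefree m ∧ m % 4 = 1 ∧ Sg15 m ∧ m ≠ 1 ∧ m ≠ 5 ∧
    tt m = dd m + k}.Infinite := by
  refine inf_of fun N => ?_
  obtain ⟨m, h0, hN, hm, h4, h3, h5, hS, hc⟩ := pos_all k (N + 1)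
  refine ⟨m, by omega, h0, hm, h4, hS, by omega, by omega, ?_⟩
  rw [tt_ndvd hm.ne_zero (by omega), hc]
  unfold Pool.Agent.N875.K15.dd
  rw [if_neg (by rw [jac_five h5]; norm_num), add_comm]

end Pool.Agent.N871.K15
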